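import Pool.Agent.ShufVar.RenameC

/-!
MP_cf3bcc_lc: for positive varieties all of whose languages are closed under superwords, or all of
whose languages are closed under subwords, closure under shuffle is closure under surjective
renamings of the letters.
-/

namespace Pool.Agent.Results.MP_cf3bcc_lc.RenamingIff

open Pool.Agent.ShufVar

theorem result : ∀ V : PosVar, (SuperwordClosed V ∨ SubwordClosed V) →
    (ShuffleClosed V ↔ RenamingClosed V) :=
  fun _ h => renaming_iff h

end Pool.Agent.Results.MP_cf3bcc_lc.RenamingIff
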