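import Pool.Agent.ShufVar.Five

/-!
MP_cf3bcc_lc: there are exactly five noncommutative positive varieties closed under shuffle all of
whose languages are closed under (scattered) subwords.
-/

namespace Pool.Agent.Results.MP_cf3bcc_lc.SubwordFive

open Pool.Agent.ShufVar

theorem result : ∃ V₁ V₂ V₃ V₄ V₅ : PosVar,
    -- description of the five positive varieties
    (∀ (A : Type) [Finite A] (L : Language A),
      L ∈ V₁.mem A ↔ L.IsRegular ∧ SubC L ∧ MoveR L ∧ MoveL L) ∧
    (∀ (A : Type) [Finite A] (L : Language A), L ∈ V₂.mem A ↔ L.IsRegular ∧ SubC L ∧ MoveR L) ∧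
    (∀ (A : Type) [Finite A] (L : Language A), L ∈ V₃.mem A ↔ L.IsRegular ∧ SubC L ∧ MoveL L) ∧
    (∀ (A : Type) [Finite A] (L : Language A), L ∈ V₄.mem A ↔ L.IsRegular ∧ SubC L ∧ CommW L) ∧
    (∀ (A : Type) [Finite A] (L : Language A), L ∈ V₅.mem A ↔ L.IsRegular ∧ SubC L) ∧
    -- they are different
    [V₁, V₂, V₃, V₄, V₅].Nodup ∧
    -- they are exactly the noncommutative ones closed under shuffle with subword closed languages
    ∀ V : PosVar, (ShuffleClosed V ∧ ¬ Commutative V ∧ SubwordClosed V) ↔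
      V = V₁ ∨ V = V₂ ∨ V = V₃ ∨ V = V₄ ∨ V = V₅ :=
  ⟨Wv k1, Wv k2, Wv k3, Wv k4, Wv full, mem_k1, mem_k2, mem_k3, mem_k4, mem_k5, five_distinct,
    five_iff⟩

end Pool.Agent.Results.MP_cf3bcc_lc.SubwordFive
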