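import Pool.Agent.ShufVar.Main

/-!
MP_cf3bcc_lc: there are exactly two minimal noncommutative positive varieties of languages closed
under shuffle, and every noncommutative positive variety closed under shuffle contains one of them.
-/

namespace Pool.Agent.Results.MP_cf3bcc_lc.TwoMinimal

open Pool.Agent.ShufVar

theorem result : ∃ VK VF : PosVar,
    -- `VK` and `VF` are the smallest positive varieties closed under shuffle with `K`, resp. `F`
    IsLeastWith K VK ∧ IsLeastWith F VF ∧
    -- they are exactly the minimal noncommutative ones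
    VK ≠ VF ∧ (∀ V : PosVar, IsMinimalNC V ↔ V = VK ∨ V = VF) ∧
    -- every noncommutative one lies above one of them
    (∀ V : PosVar, ShuffleClosed V → ¬ Commutative V →
      (SubwordClosed V → Le VF V ∧ ¬ Le VK V) ∧ (¬ SubwordClosed V → Le VK V)) ∧
    -- what their languages look like
    SubwordClosed VF ∧ SuperwordClosed VK := by
  obtain ⟨⟨h1, h2, h3, h4⟩, h5, h6, h7, h8, h9⟩ := main
  exact ⟨gen K, gen F, ⟨gen_shuffleClosed K, h1, h3⟩, ⟨gen_shuffleClosed F, h2, h4⟩, h6, h5, h7, h8,
    h9⟩

end Pool.Agent.Results.MP_cf3bcc_lc.TwoMinimal
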