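import Pool.Agent.ShufVar.ContinD

/-!
MP_cf3bcc_lc: the power set of the natural numbers embeds in the ordered set of the noncommutative
positive varieties closed under shuffle that consist of superword closed languages.
-/

namespace Pool.Agent.Results.MP_cf3bcc_lc.UpwardPowerSet

open Pool.Agent.ShufVar

theorem result : ∃ Φ : Set ℕ → PosVar,
    (∀ S, ShuffleClosed (Φ S) ∧ ¬ Commutative (Φ S) ∧ SuperwordClosed (Φ S)) ∧
      ∀ S T, Le (Φ S) (Φ T) ↔ S ⊆ T :=
  powerset_embeds

end Pool.Agent.Results.MP_cf3bcc_lc.UpwardPowerSet
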